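import Pool.Agent.Lib.MP_7c3106_co.Final

/-!
Arrangements of `n` convex polytopal patches in `ℝ^d`: the total complexity of any set `M` of
cells is `O(convex cells in M + n^(d-1) + flat corners of M)`; no flat corners if the normal
vectors of the patches have a bounded number of directions. There are `O(n^(d-1))` non-convex
cells.
-/

namespace Pool.Agent.Results.MP_7c3106_co.FlatCorners

open Pool.Agent.Lib.MP_7c3106_co

theorem result :
    ∀ d m k c : ℕ, 2 ≤ d → ∀ ε : ℝ, 0 < ε → ∃ K : ℕ,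
      ∀ (ι : Type) [Fintype ι] (T : ι → Patch d m) (dir : Fin k → Fin d → ℝ),
      (∀ i, Bornology.IsBounded (T i).car) → (∀ y, {i | y ∈ (T i).car}.ncard ≤ c) →
      {C ∈ cells T | ¬ Convex ℝ C}.Finite ∧
      {C ∈ cells T | ¬ Convex ℝ C}.ncard ≤ K * Fintype.card ι ^ (d - 1) ∧
      ∀ M ⊆ cells T, M.Finite →
        (inc T M).Finite ∧ (flatC T dir ε M).Finite ∧
        (inc T M).ncard ≤ K * ({C ∈ M | Convex ℝ C}.ncard + Fintype.card ι ^ (d - 1) +
          (flatC T dir ε M).ncard) ∧
        ((∀ i, ∃ j, ∃ t : ℝ, (T i).a = t • dir j) → flatC T dir ε M = ∅) :=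
  Final.combineF Final.mainF2

end Pool.Agent.Results.MP_7c3106_co.FlatCorners
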