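import Pool.Agent.Lib.MP_7c3106_co.Final

/-!
Arrangements of `n` convex polytopal patches in `ℝ^d`: the total number of strict local minima of
a linear functional on the branches of the cells in `M` is `O(convex cells in M + n^(d-1))`.
-/

namespace Pool.Agent.Results.MP_7c3106_co.LocalMinima

open Pool.Agent.Lib.MP_7c3106_co

theorem result :
    ∀ d m c : ℕ, 2 ≤ d → ∃ K : ℕ, ∀ (ι : Type) [Fintype ι] (T : ι → Patch d m),
      (∀ i, Bornology.IsBounded (T i).car) → (∀ y, {i | y ∈ (T i).car}.ncard ≤ c) →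
      {C ∈ cells T | ¬ Convex ℝ C}.Finite ∧
      {C ∈ cells T | ¬ Convex ℝ C}.ncard ≤ K * Fintype.card ι ^ (d - 1) ∧
      ∀ M ⊆ cells T, M.Finite → ∀ u : Fin d → ℝ,
        {q : Set (Fin d → ℝ) × (Fin d → ℝ) | q.1 ∈ M ∧ BranchMin q.1 u q.2}.Finite ∧
        {q : Set (Fin d → ℝ) × (Fin d → ℝ) | q.1 ∈ M ∧ BranchMin q.1 u q.2}.ncard ≤
          K * ({C ∈ M | Convex ℝ C}.ncard + Fintype.card ι ^ (d - 1)) :=
  Final.combineD Final.mainD

end Pool.Agent.Results.MP_7c3106_co.LocalMinima
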